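import Pool.Agent.Q6.TY.Stm2

/-! Project TY, common facts on `vl`, `ex`, `lg`. -/

set_option autoImplicit false
set_option maxHeartbeats 400000

namespace Pool.Agent.Q137.TY

open Pool.Agent.Q6.TY

variable {t : ℕ}

theorem vl_pos {p : Fin t → ℝ} (hp : ∀ i, 0 < p i) (o : O t) : 0 < vl p o := by
  cases o with
  | none => exact one_pos
  | some i => exact hp i

theorem vl_mul {R : Type} [CommRing R] (q : Fin t → R) (c : ℝ → R) (h : (Fin t → ℚ) → ℝ)
    (h0 : h 0 = 0) (hc : c 0 = 1) (o : O t) :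
    vl (fun i => q i * c (h (Pi.single i 1))) o = vl q o * c (h (ex o)) := by
  cases o with
  | none => simp [vl, ex, h0, hc]
  | some i => rfl

/-- the logarithm as a linear map -/
noncomputable def lgL (p : Fin t → ℝ) : (Fin t → ℚ) →ₗ[ℚ] ℝ where
  toFun := lg p
  map_add' v w := by
    unfold lg
    rw [← Finset.sum_add_distrib]
    refine Finset.sum_congr rfl fun i _ => ?_
    rw [Pi.add_apply]; push_cast; ring
  map_smul' c v := by
    unfold lg
    rw [RingHom.id_apply, Rat.smul_def, Finset.mul_sum]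
    refine Finset.sum_congr rfl fun i _ => ?_
    rw [Pi.smul_apply, smul_eq_mul]; push_cast; ring

theorem lgL_apply (p : Fin t → ℝ) (w : Fin t → ℚ) : lgL p w = lg p w := rfl

theorem lg_ex (p : Fin t → ℝ) (o : O t) : lg p (ex o) = Real.log (vl p o) := by
  cases o with
  | none => simp [lg, ex, vl]
  | some i =>
    unfold lg ex vl
    simp only [Option.elim_some]
    rw [Finset.sum_eq_single i]
    · rw [Pi.single_eq_same]; simp
    · intro j _ hj
      rw [Pi.single_eq_of_ne hj]; simp
    · intro h; exact absurd (Finset.mem_univ _) h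

theorem lg_VM {p : Fin t → ℝ} (hp : ∀ i, 0 < p i) {M E : Set (O t × O t × O t)}
    (h : p ∈ Sol ℝ M E) : VM M ≤ LinearMap.ker (lgL p) := by
  unfold VM
  rw [Submodule.span_le]
  rintro w ⟨x, hx, rfl⟩
  have h1 := h.1 x hx
  show lgL p _ = 0
  rw [map_sub, map_add, lgL_apply, lgL_apply, lgL_apply, lg_ex, lg_ex, lg_ex, ← h1,
    Real.log_mul (vl_pos hp _).ne' (vl_pos hp _).ne']
  ring

theorem lg_sub (p : Fin t → ℝ) (v w : Fin t → ℚ) : lg p (v - w) = lg p v - lg p w :=
  map_sub (lgL p) v w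

end Pool.Agent.Q137.TY
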