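import Pool.Agent.Q137.TY.Com

/-! Project TY, job INF1. -/

set_option autoImplicit false
set_option maxHeartbeats 400000

namespace Pool.Agent.Q137.TY

open Pool.Agent.Q6.TY

/-- the exponential of a real number, as a complex number -/
noncomputable def cex (s : ℝ) : ℂ := ((Real.exp s : ℝ) : ℂ)

theorem cex_zero : cex 0 = 1 := by simp [cex]

theorem cex_add (a b : ℝ) : cex (a + b) = cex a * cex b := by simp [cex, Real.exp_add]

theorem cex_inj {a b : ℝ} (h : cex a = cex b) : a = b := by
  have : Real.exp a = Real.exp b := by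
    unfold cex at h
    exact_mod_cast h
  exact Real.exp_injective this

theorem task_INF1 : S_INF1 := by
  intro t M E q hq hsol U hU hMU hEU
  obtain ⟨f, hf0, hfU⟩ := Submodule.exists_le_ker_of_lt_top U (lt_top_iff_ne_top.mpr hU)
  obtain ⟨i0, hi0⟩ : ∃ i, f (Pi.single i 1) ≠ 0 := by
    by_contra hc
    push Not at hc
    apply hf0
    apply LinearMap.pi_ext'
    intro i
    apply LinearMap.ext_ring
    simp only [LinearMap.comp_apply, LinearMap.coe_single, LinearMap.zero_apply]
    exact hc i
  set Q : ℝ → (Fin t → ℂ) := fun s i => q i * cex (s * (f (Pi.single i 1) : ℝ)) with hQ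
  have hvl : ∀ (s : ℝ) (o : O t), vl (Q s) o = vl q o * cex (s * (f (ex o) : ℝ)) := by
    intro s o
    exact vl_mul q cex (fun w => s * (f w : ℝ)) (by simp) cex_zero o
  refine Set.infinite_of_injective_forall_mem (f := Q) ?_ ?_
  · intro s s' h
    have h1 := congrFun h i0
    simp only [hQ] at h1
    have h2 := cex_inj (mul_left_cancel₀ (hq i0) h1)
    have h3 : ((f (Pi.single i0 1) : ℚ) : ℝ) ≠ 0 := by exact_mod_cast hi0
    exact mul_right_cancel₀ h3 h2
  · intro s
    refine ⟨fun x hx => ?_, fun x hx => ?_⟩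
    · rw [hvl, hvl, hvl, ← hsol.1 x hx]
      have h1 : f (ex x.1 + ex x.2.1 - ex x.2.2) = 0 :=
        hfU (hMU (Submodule.subset_span ⟨x, hx, rfl⟩))
      rw [map_sub, map_add] at h1
      have h2 : (f (ex x.2.2) : ℝ) = (f (ex x.1) : ℝ) + (f (ex x.2.1) : ℝ) := by
        have : f (ex x.2.2) = f (ex x.1) + f (ex x.2.1) := by linarith
        exact_mod_cast this
      rw [h2, mul_add, cex_add]
      ring
    · rw [hvl, hvl, hvl, ← hsol.2 x hx]
      obtain ⟨h1, h2⟩ := hEU x hx
      have e1 : f (ex x.2.2 - ex x.1) = 0 := hfU h1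
      have e2 : f (ex x.2.2 - ex x.2.1) = 0 := hfU h2
      rw [map_sub] at e1 e2
      have e3 : f (ex x.1) = f (ex x.2.2) := by linarith
      have e4 : f (ex x.2.1) = f (ex x.2.2) := by linarith
      rw [e3, e4]
      ring

end Pool.Agent.Q137.TY
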