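import Pool.Agent.Q137.TY.Com

/-! Project TY, job INF2. -/

set_option autoImplicit false
set_option maxHeartbeats 400000

namespace Pool.Agent.Q137.TY

open Pool.Agent.Q6.TY

theorem vl_cast {t : ℕ} (q : Fin t → ℝ) (o : O t) :
    vl (fun i => ((q i : ℝ) : ℂ)) o = ((vl q o : ℝ) : ℂ) := by
  cases o with
  | none => simp [vl]
  | some i => rfl

/-- a functional which separates -/
theorem exists_dual {t : ℕ} (V : Submodule ℚ (Fin t → ℚ)) (d e : Fin t → ℚ)
    (h : ∀ α β : ℚ, α • d + β • e ∈ V → α = 0 ∧ β = 0) :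
    ∃ f : (Fin t → ℚ) →ₗ[ℚ] ℚ, V ≤ LinearMap.ker f ∧ f d = 1 ∧ f e = 0 := by
  have hd : d ∉ V ⊔ Submodule.span ℚ {e} := by
    intro hd
    obtain ⟨v, hv, w, hw, hvw⟩ := Submodule.mem_sup.mp hd
    obtain ⟨b, rfl⟩ := Submodule.mem_span_singleton.mp hw
    have h1 := h 1 (-b) (by
      have : (1 : ℚ) • d + (-b) • e = v := by
        rw [← hvw]; simp
      rw [this]; exact hv)
    exact one_ne_zero h1.1
  obtain ⟨f, hf0, hf⟩ := Submodule.exists_le_ker_of_notMem hd
  refine ⟨(f d)⁻¹ • f, fun v hv => ?_, ?_, ?_⟩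
  · have : f v = 0 := hf (Submodule.mem_sup_left hv)
    show ((f d)⁻¹ • f) v = 0
    rw [LinearMap.smul_apply, this, smul_zero]
  · rw [LinearMap.smul_apply, smul_eq_mul, inv_mul_cancel₀ hf0]
  · have : f e = 0 := hf (Submodule.mem_sup_right (Submodule.mem_span_singleton_self e))
    rw [LinearMap.smul_apply, this, smul_zero]

theorem functional_sum {t : ℕ} (f : (Fin t → ℚ) →ₗ[ℚ] ℚ) (d : Fin t → ℚ) :
    f d = ∑ i, d i * f (Pi.single i 1) := by
  conv_lhs => rw [pi_eq_sum_univ' d]
  rw [map_sum]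
  refine Finset.sum_congr rfl fun i _ => ?_
  rw [map_smul, smul_eq_mul]

theorem task_INF2 : S_INF2 := by
  intro t M E p hp hsol d e hind hexp hE
  obtain ⟨f, hfV, hfd, hfe⟩ := exists_dual (VM M) d e hind
  obtain ⟨g, hgV, hge, hgd⟩ := exists_dual (VM M) e d (fun α β h => by
    rw [add_comm] at h
    exact (hind β α h).symm)
  set x : ℝ := lg p d with hx
  set y : ℝ := lg p e with hy
  have hx0 : 0 < x := by
    have h1 : Real.exp (-x) < 1 := by linarith [Real.exp_pos (-y)]
    have h2 : -x < 0 := by rwa [Real.exp_lt_one_iff] at h1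
    linarith
  -- the second parameter
  set B : ℝ → ℝ := fun α => -y - Real.log (1 - Real.exp (-x - α)) with hB
  have hBexp : ∀ α, 0 < α → Real.exp (-x - α) + Real.exp (-y - B α) = 1 := by
    intro α hα
    have h1 : Real.exp (-x - α) < 1 := by
      rw [Real.exp_lt_one_iff]; linarith
    have h2 : -y - B α = Real.log (1 - Real.exp (-x - α)) := by rw [hB]; ring
    rw [h2, Real.exp_log (by linarith)]
    ring
  set H : ℝ → (Fin t → ℚ) → ℝ := fun α w => α * (f w : ℝ) + B α * (g w : ℝ) with hH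
  set Q : ℝ → (Fin t → ℝ) := fun α i => p i * Real.exp (H α (Pi.single i 1)) with hQ
  have hvl : ∀ (α : ℝ) (o : O t), vl (Q α) o = vl p o * Real.exp (H α (ex o)) := by
    intro α o
    exact vl_mul p Real.exp (H α) (by simp [hH]) Real.exp_zero o
  have hVM : ∀ w ∈ VM M, lg p w = 0 := fun w hw => lg_VM hp hsol hw
  have hmain : ∀ α, 0 < α → (fun i => ((Q α i : ℝ) : ℂ)) ∈ Sol ℂ M E := by
    intro α hα
    refine ⟨fun z hz => ?_, fun z hz => ?_⟩
    · rw [vl_cast, vl_cast, vl_cast]
      rw [← Complex.ofReal_mul]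
      congr 1
      rw [hvl, hvl, hvl, ← hsol.1 z hz]
      have hm : ex z.1 + ex z.2.1 - ex z.2.2 ∈ VM M := Submodule.subset_span ⟨z, hz, rfl⟩
      have h1 : f (ex z.1 + ex z.2.1 - ex z.2.2) = 0 := hfV hm
      have h2 : g (ex z.1 + ex z.2.1 - ex z.2.2) = 0 := hgV hm
      rw [map_sub, map_add] at h1 h2
      have h3 : (f (ex z.2.2) : ℝ) = (f (ex z.1) : ℝ) + (f (ex z.2.1) : ℝ) := by
        have : f (ex z.2.2) = f (ex z.1) + f (ex z.2.1) := by linarith
        exact_mod_cast this
      have h4 : (g (ex z.2.2) : ℝ) = (g (ex z.1) : ℝ) + (g (ex z.2.1) : ℝ) := by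
        have : g (ex z.2.2) = g (ex z.1) + g (ex z.2.1) := by linarith
        exact_mod_cast this
      have h5 : H α (ex z.2.2) = H α (ex z.1) + H α (ex z.2.1) := by
        simp only [hH]
        rw [h3, h4]; ring
      rw [h5, Real.exp_add (H α (ex z.1)) (H α (ex z.2.1))]
      ring
    · rw [vl_cast, vl_cast, vl_cast]
      rw [← Complex.ofReal_add]
      congr 1
      rw [hvl, hvl, hvl]
      -- the two places
      have key : ∀ (i k : O t) (c : Fin t → ℚ), ex k - ex i - c ∈ VM M → ∀ s : ℝ,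
          (H α c = s) → vl p i * Real.exp (H α (ex i)) =
            vl p k * Real.exp (H α (ex k)) * Real.exp (-(lg p c) - s) := by
        intro i k c hc s hs
        have h1 : f (ex k - ex i - c) = 0 := hfV hc
        have h2 : g (ex k - ex i - c) = 0 := hgV hc
        have h3 := hVM _ hc
        rw [lg_sub, lg_sub, lg_ex, lg_ex] at h3
        rw [map_sub, map_sub] at h1 h2
        have h4 : (f (ex i) : ℝ) = (f (ex k) : ℝ) - (f c : ℝ) := by
          have : f (ex i) = f (ex k) - f c := by linarith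
          exact_mod_cast this
        have h5 : (g (ex i) : ℝ) = (g (ex k) : ℝ) - (g c : ℝ) := by
          have : g (ex i) = g (ex k) - g c := by linarith
          exact_mod_cast this
        have h6 : H α (ex i) = H α (ex k) - s := by
          rw [← hs]
          simp only [hH]
          rw [h4, h5]; ring
        have hi : vl p i = Real.exp (Real.log (vl p i)) := (Real.exp_log (vl_pos hp i)).symm
        have hk : vl p k = Real.exp (Real.log (vl p k)) := (Real.exp_log (vl_pos hp k)).symm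
        rw [hi, hk, ← Real.exp_add, ← Real.exp_add, ← Real.exp_add]
        congr 1
        rw [h6]
        linarith
      have hHd : H α d = α := by simp [hH, hfd, hgd]
      have hHe : H α e = B α := by simp [hH, hfe, hge]
      have hs := hBexp α hα
      rcases hE z hz with ⟨h1, h2⟩ | ⟨h1, h2⟩
      · rw [key _ _ d h1 _ hHd, key _ _ e h2 _ hHe, ← mul_add, hs, mul_one]
      · rw [key _ _ e h1 _ hHe, key _ _ d h2 _ hHd, ← mul_add, add_comm (Real.exp _), hs, mul_one]
  refine Set.infinite_of_injective_forall_mem (f := fun n : ℕ => fun i =>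
    ((Q ((n : ℝ) + 1) i : ℝ) : ℂ)) ?_ (fun n => hmain _ (by positivity))
  intro n n' h
  have hL : ∀ α : ℝ, ∑ i, (d i : ℝ) * H α (Pi.single i 1) = α := by
    intro α
    have e1 : ∀ i, (d i : ℝ) * H α (Pi.single i 1) =
        α * ((d i * f (Pi.single i 1) : ℚ) : ℝ) + B α * ((d i * g (Pi.single i 1) : ℚ) : ℝ) := by
      intro i
      simp only [hH]
      push_cast
      ring
    rw [Finset.sum_congr rfl (fun i _ => e1 i), Finset.sum_add_distrib, ← Finset.mul_sum,
      ← Finset.mul_sum, ← Rat.cast_sum, ← Rat.cast_sum, ← functional_sum, ← functional_sum,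
      hfd, hgd]
    simp
  have h1 : ∀ i, H ((n : ℝ) + 1) (Pi.single i 1) = H ((n' : ℝ) + 1) (Pi.single i 1) := by
    intro i
    have h2 := congrFun h i
    simp only at h2
    have h3 : Q ((n : ℝ) + 1) i = Q ((n' : ℝ) + 1) i := by exact_mod_cast h2
    simp only [hQ] at h3
    exact Real.exp_injective (mul_left_cancel₀ (hp i).ne' h3)
  have h4 : (n : ℝ) + 1 = (n' : ℝ) + 1 := by
    rw [← hL ((n : ℝ) + 1), ← hL ((n' : ℝ) + 1)]
    exact Finset.sum_congr rfl fun i _ => by rw [h1 i]
  have h5 : (n : ℝ) = n' := by linarith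
  exact_mod_cast h5

end Pool.Agent.Q137.TY
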