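import Pool.Agent.Q137.TY.Com
import Pool.Agent.Q6.Add.Short

/-! Project TY, linear algebra for the jobs SPAN and POS2. -/

set_option autoImplicit false
set_option maxHeartbeats 400000

namespace Pool.Agent.Q137.TY

open Pool.Agent.Q6.TY Module

variable {t : ℕ}

/-- the vectors of the multiplicative equations -/
def SM (M : Set (O t × O t × O t)) : Set (Fin t → ℚ) := {w | ∃ x ∈ M, w = ex x.1 + ex x.2.1 - ex x.2.2}

theorem VM_eq (M : Set (O t × O t × O t)) : VM M = Submodule.span ℚ (SM M) := rfl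

/-- integral vectors -/
def Intg (w : Fin t → ℚ) : Prop := ∃ v : Fin t → ℤ, ∀ c, w c = (v c : ℚ)

theorem Intg.add {v w : Fin t → ℚ} (hv : Intg v) (hw : Intg w) : Intg (v + w) := by
  obtain ⟨a, ha⟩ := hv
  obtain ⟨b, hb⟩ := hw
  exact ⟨a + b, fun c => by simp [ha, hb]⟩

theorem Intg.sub {v w : Fin t → ℚ} (hv : Intg v) (hw : Intg w) : Intg (v - w) := by
  obtain ⟨a, ha⟩ := hv
  obtain ⟨b, hb⟩ := hw
  exact ⟨a - b, fun c => by simp [ha, hb]⟩

theorem ex_intg (o : O t) : Intg (ex o) := by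
  cases o with
  | none => exact ⟨0, fun c => by simp [ex]⟩
  | some i =>
    refine ⟨Pi.single i 1, fun c => ?_⟩
    by_cases h : c = i
    · subst h; simp [ex]
    · simp [ex, h]

theorem ex_subp (o : O t) : Q6.Add.Subp (ex o) := by
  cases o with
  | none => exact ⟨fun i => by simp [ex], by simp [ex]⟩
  | some i =>
    refine ⟨fun c => ?_, by simp [ex]⟩
    by_cases h : c = i
    · subst h; simp [ex]
    · simp [ex, h]

theorem zero_subp : Q6.Add.Subp (0 : Fin t → ℚ) := ⟨fun i => le_refl _, by simp⟩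

theorem sub_short (o o' : O t) : Q6.Add.Short (ex o - ex o') := ⟨ex o, ex o', ex_subp o, ex_subp o', rfl⟩

theorem ex_short (o : O t) : Q6.Add.Short (ex o) :=
  ⟨ex o, 0, ex_subp o, zero_subp, by simp⟩

theorem SM_short {M : Set (O t × O t × O t)} {w : Fin t → ℚ} (hw : w ∈ SM M) :
    ∃ s, Q6.Add.Short s ∧ w = (2 : ℚ) • s := by
  obtain ⟨x, -, rfl⟩ := hw
  refine ⟨(1 / 2 : ℚ) • (ex x.1 + ex x.2.1) - (1 / 2 : ℚ) • ex x.2.2, ⟨_, _, ?_, ?_, rfl⟩, ?_⟩
  · have h1 := ex_subp x.1
    have h2 := ex_subp x.2.1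
    refine ⟨fun i => ?_, ?_⟩
    · simp only [Pi.smul_apply, Pi.add_apply, smul_eq_mul]
      have := h1.1 i
      have := h2.1 i
      linarith
    · simp only [Pi.smul_apply, Pi.add_apply, smul_eq_mul]
      rw [← Finset.mul_sum, Finset.sum_add_distrib]
      linarith [h1.2, h2.2]
  · have h1 := ex_subp x.2.2
    refine ⟨fun i => ?_, ?_⟩
    · simp only [Pi.smul_apply, smul_eq_mul]
      have := h1.1 i
      linarith
    · simp only [Pi.smul_apply, smul_eq_mul]
      rw [← Finset.mul_sum]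
      linarith [h1.2]
  · funext c
    simp only [Pi.smul_apply, Pi.sub_apply, Pi.add_apply, smul_eq_mul]
    ring

theorem SM_intg {M : Set (O t × O t × O t)} {w : Fin t → ℚ} (hw : w ∈ SM M) : Intg w := by
  obtain ⟨x, -, rfl⟩ := hw
  exact ((ex_intg _).add (ex_intg _)).sub (ex_intg _)

/-- a basis adapted to two spanning sets -/
theorem exists_basis (S1 S2 : Set (Fin t → ℚ))
    (hS : Submodule.span ℚ S1 ⊔ Submodule.span ℚ S2 = ⊤) :
    ∃ (B : Basis (Fin t) ℚ (Fin t → ℚ)) (J : Finset (Fin t)), (∀ i ∈ J, B i ∈ S1) ∧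
      (∀ i, i ∉ J → B i ∈ S2) ∧ J.card = finrank ℚ (Submodule.span ℚ S1) ∧
      Submodule.span ℚ S1 = Submodule.span ℚ (Set.range (fun i : J => B i)) := by
  classical
  obtain ⟨s1, hs1S, hspan1, hli1⟩ := exists_linearIndependent ℚ S1
  obtain ⟨b, hb, hsb, htb, hlib⟩ := exists_linearIndepOn_id_extension (K := ℚ) (s := s1) hli1
    (Set.subset_union_left : s1 ⊆ s1 ∪ S2)
  have hspanb : ⊤ ≤ Submodule.span ℚ b := by
    rw [← hS, sup_le_iff]
    constructor
    · rw [← hspan1]
      exact Submodule.span_mono hsb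
    · rw [Submodule.span_le]
      exact Set.subset_union_right.trans htb
  have hlib' : LinearIndependent ℚ (fun x : b => (x : Fin t → ℚ)) := hlib
  have hfin : Finite b := hlib'.finite
  have : Fintype b := Fintype.ofFinite b
  set Bb : Basis b ℚ (Fin t → ℚ) := Basis.mk hlib' (by
    have : Set.range (fun x : b => (x : Fin t → ℚ)) = b := Subtype.range_coe
    rw [this]; exact hspanb) with hBb
  have hcard : Fintype.card b = t := by
    rw [← finrank_eq_card_basis Bb, finrank_fin_fun]
  set e : b ≃ Fin t := Fintype.equivFinOfCardEq hcard with he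
  set B := Bb.reindex e with hB
  have hBi : ∀ i, B i = (e.symm i : Fin t → ℚ) := by
    intro i
    rw [hB, Basis.reindex_apply, hBb, Basis.mk_apply]
  set J : Finset (Fin t) := Finset.univ.filter (fun i => B i ∈ s1) with hJ
  have hrange : Set.range (fun i : J => B i) = s1 := by
    ext v
    constructor
    · rintro ⟨i, rfl⟩
      exact (Finset.mem_filter.mp i.2).2
    · intro hv
      refine ⟨⟨e ⟨v, hsb hv⟩, ?_⟩, ?_⟩
      · rw [hJ, Finset.mem_filter]
        refine ⟨Finset.mem_univ _, ?_⟩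
        rw [hBi, Equiv.symm_apply_apply]
        exact hv
      · show B (e ⟨v, hsb hv⟩) = v
        rw [hBi, Equiv.symm_apply_apply]
  have hspanJ : Submodule.span ℚ S1 = Submodule.span ℚ (Set.range (fun i : J => B i)) := by
    rw [hrange, hspan1]
  refine ⟨B, J, ?_, ?_, ?_, hspanJ⟩
  · intro i hi
    exact hs1S (Finset.mem_filter.mp hi).2
  · intro i hi
    have h1 : B i ∈ b := by rw [hBi]; exact (e.symm i).2
    rcases hb h1 with h2 | h2
    · exfalso
      apply hi
      rw [hJ, Finset.mem_filter]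
      exact ⟨Finset.mem_univ _, h2⟩
    · exact h2
  · rw [hspanJ]
    have hli : LinearIndependent ℚ (fun i : J => B i) :=
      B.linearIndependent.comp (fun i : J => (i : Fin t)) Subtype.val_injective
    rw [finrank_span_eq_card hli]
    simp

theorem det_intg (N : Matrix (Fin t) (Fin t) ℚ) (h : ∀ i, Intg (N i)) : ∃ n : ℤ, N.det = n := by
  choose v hv using h
  refine ⟨(Matrix.of v).det, ?_⟩
  have : N = (Int.castRingHom ℚ).mapMatrix (Matrix.of v) := by
    ext i c
    rw [hv i c]
    rfl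
  rw [this, ← RingHom.map_det]
  rfl

end Pool.Agent.Q137.TY
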