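import Pool.Agent.Q6.TY.Stm2

/-! Project TY, job R2N. -/

set_option autoImplicit false
set_option maxHeartbeats 400000

namespace Pool.Agent.Q137.TY

open Pool.Agent.Q6.TY

/-- `- log (1 - exp (-x))` -/
noncomputable def yy (x : ℝ) : ℝ := -Real.log (1 - Real.exp (-x))

theorem yy_of {x y : ℝ} (h : Real.exp (-x) + Real.exp (-y) = 1) : y = yy x := by
  unfold yy
  have : 1 - Real.exp (-x) = Real.exp (-y) := by linarith
  rw [this, Real.log_exp, neg_neg]

theorem one_sub_exp_pos {x : ℝ} (hx : 0 < x) : 0 < 1 - Real.exp (-x) := by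
  have : Real.exp (-x) < 1 := by rw [Real.exp_lt_one_iff]; linarith
  linarith

theorem yy_nonneg {x : ℝ} (hx : 0 < x) : 0 ≤ yy x := by
  unfold yy
  have h1 := one_sub_exp_pos hx
  have h2 : 1 - Real.exp (-x) ≤ 1 := by linarith [Real.exp_pos (-x)]
  have := Real.log_nonpos h1.le h2
  linarith

/-- convexity of the exponential along a segment from zero -/
theorem exp_chord {s c : ℝ} (hs0 : 0 ≤ s) (hs1 : s ≤ 1) :
    Real.exp (s * c) ≤ 1 + s * (Real.exp c - 1) := by
  have h := convexOn_exp.2 (Set.mem_univ c) (Set.mem_univ 0) hs0 (by linarith : (0 : ℝ) ≤ 1 - s)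
    (by ring)
  simp only [smul_eq_mul, mul_zero, add_zero, Real.exp_zero, mul_one] at h
  linarith

theorem F1u {a b : ℝ} (hb : 0 < b) (hba : b ≤ a) : yy b - yy a ≤ Real.log (a / b) := by
  have ha : 0 < a := lt_of_lt_of_le hb hba
  have h1 := exp_chord (s := b / a) (c := -a) (by positivity) (by rw [div_le_one ha]; exact hba)
  have e : b / a * -a = -b := by field_simp
  rw [e] at h1
  have hpa := one_sub_exp_pos ha
  have hpb := one_sub_exp_pos hb
  have h2 : b / a * (1 - Real.exp (-a)) ≤ 1 - Real.exp (-b) := by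
    have : b / a * (Real.exp (-a) - 1) = -(b / a * (1 - Real.exp (-a))) := by ring
    linarith
  unfold yy
  have h3 : Real.log (1 - Real.exp (-a)) ≤ Real.log (a / b * (1 - Real.exp (-b))) := by
    apply Real.log_le_log hpa
    have : 1 - Real.exp (-a) = a / b * (b / a * (1 - Real.exp (-a))) := by field_simp
    rw [this]
    exact mul_le_mul_of_nonneg_left h2 (by positivity)
  rw [Real.log_mul (by positivity) hpb.ne'] at h3
  linarith

theorem F1l {a b : ℝ} (hb : 0 < b) (hba : b ≤ a) (ha2 : a ≤ Real.log 2) :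
    Real.log 2 * Real.log (a / b) ≤ yy b - yy a := by
  have ha : 0 < a := lt_of_lt_of_le hb hba
  have hl2 : 0 < Real.log 2 := Real.log_pos (by norm_num)
  set G : ℝ → ℝ := fun s => Real.log (1 - Real.exp (-s)) - Real.log 2 * Real.log s with hG
  have hder : ∀ s, 0 < s → HasDerivAt G
      (Real.exp (-s) / (1 - Real.exp (-s)) - Real.log 2 * s⁻¹) s := by
    intro s hs
    have h1 : HasDerivAt (fun s : ℝ => 1 - Real.exp (-s)) (Real.exp (-s)) s := by
      have h2 : HasDerivAt (fun s : ℝ => Real.exp (-s)) (Real.exp (-s) * (-1)) s :=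
        (Real.hasDerivAt_exp (-s)).comp s (hasDerivAt_neg s)
      have h3 := h2.const_sub 1
      have e : -(Real.exp (-s) * (-1)) = Real.exp (-s) := by ring
      rwa [e] at h3
    exact (h1.log (one_sub_exp_pos hs).ne').sub ((Real.hasDerivAt_log hs.ne').const_mul _)
  have hmono : MonotoneOn G (Set.Icc b a) := by
    apply monotoneOn_of_deriv_nonneg (convex_Icc b a)
    · intro s hs
      exact (hder s (lt_of_lt_of_le hb hs.1)).continuousAt.continuousWithinAt
    · intro s hs
      rw [interior_Icc] at hs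
      exact (hder s (hb.trans hs.1)).differentiableAt.differentiableWithinAt
    · intro s hs
      rw [interior_Icc] at hs
      have hs0 : 0 < s := hb.trans hs.1
      rw [(hder s hs0).deriv]
      have hsl : s ≤ Real.log 2 := hs.2.le.trans ha2
      have h1 := exp_chord (s := s / Real.log 2) (c := Real.log 2) (by positivity)
        (by rw [div_le_one hl2]; exact hsl)
      rw [div_mul_cancel₀ _ hl2.ne', Real.exp_log (by norm_num)] at h1
      have hp := one_sub_exp_pos hs0
      have h2 : Real.exp (-s) / (1 - Real.exp (-s)) = 1 / (Real.exp s - 1) := by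
        have he : Real.exp s * Real.exp (-s) = 1 := by rw [← Real.exp_add]; simp
        have hp2 : 0 < Real.exp s - 1 := by
          have : 1 < Real.exp s := by rw [Real.one_lt_exp_iff]; exact hs0
          linarith
        rw [div_eq_div_iff hp.ne' hp2.ne']
        linarith
      rw [h2]
      have hp2 : 0 < Real.exp s - 1 := by
        have : 1 < Real.exp s := by rw [Real.one_lt_exp_iff]; exact hs0
        linarith
      have h3 : Real.log 2 * s⁻¹ ≤ 1 / (Real.exp s - 1) := by
        rw [le_div_iff₀ hp2]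
        have h4 : Real.exp s - 1 ≤ s / Real.log 2 := by linarith
        calc Real.log 2 * s⁻¹ * (Real.exp s - 1) ≤ Real.log 2 * s⁻¹ * (s / Real.log 2) :=
              mul_le_mul_of_nonneg_left h4 (by positivity)
          _ = 1 := by field_simp
      linarith
  have h := hmono (Set.left_mem_Icc.mpr hba) (Set.right_mem_Icc.mpr hba) hba
  simp only [hG] at h
  unfold yy
  rw [Real.log_div ha.ne' hb.ne']
  linarith

theorem F2 {x : ℝ} (hx : 0 < x) (hx2 : x ≤ Real.log 2) : yy x ≤ Real.log (2 * Real.log 2 / x) := by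
  have hl2 : 0 < Real.log 2 := Real.log_pos (by norm_num)
  have h1 := exp_chord (s := x / Real.log 2) (c := -Real.log 2) (by positivity)
    (by rw [div_le_one hl2]; exact hx2)
  have e : x / Real.log 2 * -Real.log 2 = -x := by field_simp
  have e2 : Real.exp (-Real.log 2) = 1 / 2 := by
    rw [Real.exp_neg, Real.exp_log (by norm_num)]; norm_num
  rw [e, e2] at h1
  have h2 : x / (2 * Real.log 2) ≤ 1 - Real.exp (-x) := by
    have : x / Real.log 2 * (1 / 2 - 1) = -(x / (2 * Real.log 2)) := by field_simp; ring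
    linarith
  unfold yy
  have h3 := Real.log_le_log (by positivity) h2
  have h4 : Real.log (2 * Real.log 2 / x) = -Real.log (x / (2 * Real.log 2)) := by
    rw [← Real.log_inv, inv_div]
  rw [h4]
  linarith

theorem log2_bounds : (0.69 : ℝ) < Real.log 2 ∧ Real.log 2 < 0.7 :=
  ⟨by linarith [Real.log_two_gt_d9], by linarith [Real.log_two_lt_d9]⟩

/-- the core, with `x2 < x1` -/
theorem core (D U x1 x2 y1 y2 : ℝ) (r1 d11 d12 d21 d22 A1 A2 κ : ℤ) (hD : 0 < D)
    (hr1 : |(r1 : ℝ)| ≤ D) (hA1 : |(A1 : ℝ)| ≤ D) (hA2 : |(A2 : ℝ)| ≤ D)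
    (hx1 : x1 ≤ Real.log 2) (hx2 : 0 < x2) (hx : x2 < x1)
    (hy1 : y1 = yy x1) (hy2 : y2 = yy x2)
    (e1 : (d11 : ℝ) * x2 = d21 * x1) (e2 : (d12 : ℝ) * x2 = d22 * x1)
    (e3 : (d11 : ℝ) * U = A1 * x1 - r1 * y1) (e4 : (d12 : ℝ) * U = A2 * x1 - r1 * y2)
    (e5 : (κ : ℝ) * x1 = d12 * y1 - d11 * y2) (e6 : r1 * κ = A1 * d12 - A2 * d11)
    (hd : d11 ≠ 0 ∨ d12 ≠ 0) : |U| ≤ 2 * D * Real.log 2 := by
  obtain ⟨l1, l2⟩ := log2_bounds
  have hl2 : 0 < Real.log 2 := by linarith
  have hx10 : 0 < x1 := hx2.trans hx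
  -- the quotient
  obtain ⟨α, β, hβ, hβα, hαβ, hcop⟩ : ∃ α β : ℤ, 0 < β ∧ β < α ∧ (α : ℝ) * x2 = β * x1 ∧
      IsCoprime α β := by
    have hex : ∃ d d' : ℤ, d ≠ 0 ∧ (d : ℝ) * x2 = d' * x1 := by
      rcases hd with h | h
      · exact ⟨d11, d21, h, e1⟩
      · exact ⟨d12, d22, h, e2⟩
    obtain ⟨d, d', hd0, hdd⟩ := hex
    have hd'0 : d' ≠ 0 := by
      rintro rfl
      have h1 : (d : ℝ) * x2 = 0 := by rw [hdd]; simp
      rcases mul_eq_zero.mp h1 with h | h
      · exact hd0 (by exact_mod_cast h)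
      · exact hx2.ne' h
    have hd'R : (d' : ℝ) ≠ 0 := by exact_mod_cast hd'0
    set q : ℚ := (d : ℚ) / d' with hq
    have hqR : (q : ℝ) = x1 / x2 := by
      rw [hq]
      push_cast
      rw [div_eq_div_iff hd'R hx2.ne', hdd]
      ring
    have hq1 : 1 < q := by
      have : (1 : ℝ) < q := by rw [hqR, lt_div_iff₀ hx2]; linarith
      exact_mod_cast this
    have hden : (0 : ℤ) < q.den := by exact_mod_cast q.den_pos
    have hnd : (q.num : ℚ) / (q.den : ℚ) = q := Rat.num_div_den q
    have hdenQ : (0 : ℚ) < q.den := by exact_mod_cast q.den_pos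
    refine ⟨q.num, (q.den : ℤ), hden, ?_, ?_, ?_⟩
    · have h1 : (q.den : ℚ) < q.num := by
        rw [← hnd, lt_div_iff₀ hdenQ, one_mul] at hq1
        exact hq1
      exact_mod_cast h1
    · have h1 : (q.num : ℝ) / (q.den : ℝ) = x1 / x2 := by
        rw [← hqR]
        exact_mod_cast congrArg (fun z : ℚ => (z : ℝ)) hnd
      have hdR : (q.den : ℝ) ≠ 0 := by exact_mod_cast q.den_pos.ne'
      rw [div_eq_div_iff hdR hx2.ne'] at h1
      push_cast
      linarith
    · rw [Int.isCoprime_iff_nat_coprime]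
      simpa using q.reduced
  have hα2 : (2 : ℝ) ≤ α := by
    have : (2 : ℤ) ≤ α := by omega
    exact_mod_cast this
  have hα0 : (0 : ℝ) < α := by linarith
  have hβ0 : (0 : ℝ) < β := by exact_mod_cast hβ
  have hdiv : ∀ d d' : ℤ, (d : ℝ) * x2 = d' * x1 → α ∣ d := by
    intro d d' h
    have h1 : ((d * β : ℤ) : ℝ) * x1 = ((d' * α : ℤ) : ℝ) * x1 := by
      push_cast
      calc (d : ℝ) * β * x1 = d * (β * x1) := by ring
        _ = d * (α * x2) := by rw [hαβ]
        _ = α * (d * x2) := by ring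
        _ = α * (d' * x1) := by rw [h]
        _ = d' * α * x1 := by ring
    have h2 : ((d * β : ℤ) : ℝ) = ((d' * α : ℤ) : ℝ) := mul_right_cancel₀ hx10.ne' h1
    have h3 : d * β = d' * α := by exact_mod_cast h2
    exact hcop.dvd_of_dvd_mul_right (Dvd.intro_left d' h3.symm)
  have hdv1 := hdiv d11 d21 e1
  have hdv2 := hdiv d12 d22 e2
  have habs : ∀ d : ℤ, α ∣ d → d ≠ 0 → (α : ℝ) ≤ |(d : ℝ)| := by
    intro d h h0
    have h1 : α ≤ |d| := Int.le_of_dvd (abs_pos.mpr h0) ((dvd_abs _ _).mpr h)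
    have h2 : ((α : ℤ) : ℝ) ≤ ((|d| : ℤ) : ℝ) := by exact_mod_cast h1
    rwa [Int.cast_abs] at h2
  -- the quotient of the x's
  have hquo : x1 / x2 = α / β := by
    rw [div_eq_div_iff hx2.ne' hβ0.ne']
    linarith
  have hlogu : Real.log (x1 / x2) ≤ Real.log α := by
    rw [hquo]
    apply Real.log_le_log (by positivity)
    rw [div_le_iff₀ hβ0]
    have : (1 : ℝ) ≤ β := by exact_mod_cast hβ
    exact le_mul_of_one_le_right hα0.le this
  have hlogl : 1 / (α : ℝ) ≤ Real.log (x1 / x2) := by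
    rw [hquo]
    have h1 := Real.one_sub_inv_le_log_of_pos (show (0 : ℝ) < α / β by positivity)
    refine le_trans ?_ h1
    rw [inv_div]
    have h2 : (β : ℝ) + 1 ≤ α := by exact_mod_cast hβα
    have h3 : 1 - (β : ℝ) / α = (α - β) / α := by field_simp
    rw [h3]
    apply div_le_div_of_nonneg_right _ hα0.le
    linarith
  have hΔu : y2 - y1 ≤ Real.log (x1 / x2) := by
    rw [hy1, hy2]; exact F1u hx2 hx.le
  have hΔl : Real.log 2 * Real.log (x1 / x2) ≤ y2 - y1 := by
    rw [hy1, hy2]; exact F1l hx2 hx.le hx1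
  have hΔ0 : 0 ≤ y2 - y1 := by
    refine le_trans ?_ hΔl
    have : 0 ≤ Real.log (x1 / x2) := le_trans (by positivity) hlogl
    positivity
  have hlogα : Real.log α ≤ (α : ℝ) - 1 := Real.log_le_sub_one_of_pos hα0
  have hAA : |((A2 : ℝ) - A1)| ≤ 2 * D := by
    have := abs_sub (A2 : ℝ) (A1 : ℝ)
    linarith
  by_cases hne : d11 = d12
  · -- equal case
    subst hne
    have hd0 : d11 ≠ 0 := by rcases hd with h | h <;> exact h
    have hda := habs d11 hdv1 hd0
    have hdR : (d11 : ℝ) ≠ 0 := by exact_mod_cast hd0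
    by_cases hr0 : r1 = 0
    · subst hr0
      have h1 : |(d11 : ℝ)| * |U| = |(A1 : ℝ)| * x1 := by
        rw [← abs_mul, e3]
        simp only [Int.cast_zero, zero_mul, sub_zero]
        rw [abs_mul, abs_of_pos hx10]
      have h2 : |(A1 : ℝ)| * x1 ≤ D * Real.log 2 :=
        mul_le_mul hA1 hx1 hx10.le hD.le
      have h3 : 1 * |U| ≤ |(d11 : ℝ)| * |U| :=
        mul_le_mul_of_nonneg_right (le_trans (by norm_num) (hα2.trans hda)) (abs_nonneg U)
      have h4 := mul_pos hD hl2
      linarith only [h1, h2, h3, h4]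
    · have hrR : (r1 : ℝ) ≠ 0 := by exact_mod_cast hr0
      have hra : 0 < |(r1 : ℝ)| := abs_pos.mpr hrR
      -- r1 (y1 - y2) = (A1 - A2) x1
      have h6 : (r1 : ℝ) * κ = ((A1 : ℝ) - A2) * d11 := by
        have : ((r1 * κ : ℤ) : ℝ) = ((A1 * d11 - A2 * d11 : ℤ) : ℝ) := by rw [e6]
        push_cast at this
        linarith
      have h7 : (d11 : ℝ) * (r1 * (y1 - y2)) = (d11 : ℝ) * ((A1 - A2) * x1) := by
        calc (d11 : ℝ) * (r1 * (y1 - y2)) = r1 * (d11 * y1 - d11 * y2) := by ring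
          _ = r1 * (κ * x1) := by rw [e5]
          _ = (r1 * κ) * x1 := by ring
          _ = _ := by rw [h6]; ring
      have h8 := mul_left_cancel₀ hdR h7
      have h9 : |(r1 : ℝ)| * (y2 - y1) ≤ 2 * D * x1 := by
        have h10 : |(r1 : ℝ) * (y1 - y2)| = |(A1 : ℝ) - A2| * x1 := by
          rw [h8, abs_mul, abs_of_pos hx10]
        rw [abs_mul, abs_sub_comm y1 y2, abs_of_nonneg hΔ0] at h10
        rw [h10]
        refine mul_le_mul_of_nonneg_right ?_ hx10.le
        rw [abs_sub_comm]; exact hAA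
      set ρ : ℝ := |(r1 : ℝ)| / D with hρ
      have hρ0 : 0 < ρ := by positivity
      have hρ1 : ρ ≤ 1 := by rw [hρ, div_le_one hD]; exact hr1
      have hρD : |(r1 : ℝ)| = ρ * D := by rw [hρ]; field_simp
      have hx1l : ρ * Real.log 2 / (2 * α) ≤ x1 := by
        have h11 : Real.log 2 * (1 / (α : ℝ)) ≤ y2 - y1 :=
          (mul_le_mul_of_nonneg_left hlogl hl2.le).trans hΔl
        have h12 : ρ * (y2 - y1) ≤ 2 * x1 := by
          rw [hρD] at h9
          have : D * (ρ * (y2 - y1)) ≤ D * (2 * x1) := by linarith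
          exact le_of_mul_le_mul_left this hD
        have h13 : ρ * (Real.log 2 * (1 / (α : ℝ))) ≤ 2 * x1 :=
          (mul_le_mul_of_nonneg_left h11 hρ0.le).trans h12
        have h14 : ρ * Real.log 2 / (2 * α) = ρ * (Real.log 2 * (1 / (α : ℝ))) / 2 := by
          field_simp
        rw [h14]
        linarith
      have hy1u : y1 ≤ Real.log (4 * α / ρ) := by
        rw [hy1]
        refine (F2 hx10 hx1).trans ?_
        apply Real.log_le_log (by positivity)
        rw [div_le_div_iff₀ hx10 hρ0]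
        have h15 : ρ * Real.log 2 ≤ x1 * (2 * α) := by
          rwa [div_le_iff₀ (by positivity)] at hx1l
        linarith
      have hρlog : ρ * Real.log (4 * α / ρ) ≤ Real.log (4 * α) := by
        have h16 : Real.log (4 * α / ρ) = Real.log (4 * α) + Real.log (ρ⁻¹) := by
          rw [Real.log_div (by positivity) hρ0.ne', Real.log_inv]; ring
        have h17 : Real.log (ρ⁻¹) ≤ ρ⁻¹ - 1 := Real.log_le_sub_one_of_pos (by positivity)
        have h18 : ρ * Real.log (ρ⁻¹) ≤ 1 - ρ := by
          have := mul_le_mul_of_nonneg_left h17 hρ0.le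
          have h19 : ρ * (ρ⁻¹ - 1) = 1 - ρ := by field_simp
          linarith
        have h20 : 1 ≤ Real.log (4 * α) := by
          have h21 : Real.log (4 * 2) ≤ Real.log (4 * α) :=
            Real.log_le_log (by norm_num) (by linarith)
          have h22 : Real.log (4 * 2) = 3 * Real.log 2 := by
            have : (4 * 2 : ℝ) = 2 ^ 3 := by norm_num
            rw [this, Real.log_pow]; norm_num
          linarith
        rw [h16, mul_add]
        have h30 := mul_le_mul_of_nonneg_left h20 (sub_nonneg.mpr hρ1)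
        linarith only [h30, h18]
      have hy10 : 0 ≤ y1 := by rw [hy1]; exact yy_nonneg hx10
      have h23 : |(d11 : ℝ)| * |U| ≤ D * Real.log 2 + D * Real.log (4 * α) := by
        rw [← abs_mul, e3]
        refine (abs_sub _ _).trans ?_
        rw [abs_mul, abs_mul, abs_of_pos hx10, abs_of_nonneg hy10]
        have h24 : |(A1 : ℝ)| * x1 ≤ D * Real.log 2 := mul_le_mul hA1 hx1 hx10.le hD.le
        have h25 : |(r1 : ℝ)| * y1 ≤ D * Real.log (4 * α) := by
          rw [hρD]
          calc ρ * D * y1 ≤ ρ * D * Real.log (4 * α / ρ) :=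
                mul_le_mul_of_nonneg_left hy1u (by positivity)
            _ = D * (ρ * Real.log (4 * α / ρ)) := by ring
            _ ≤ _ := mul_le_mul_of_nonneg_left hρlog hD.le
        linarith
      have h26 : Real.log (4 * α) ≤ (2 * α - 1) * Real.log 2 := by
        have h27 : Real.log (4 * α) = 3 * Real.log 2 + Real.log (α / 2) := by
          have : (4 * α : ℝ) = 2 ^ 3 * (α / 2) := by ring
          rw [this, Real.log_mul (by positivity) (by positivity), Real.log_pow]; norm_num
        have h28 : Real.log ((α : ℝ) / 2) ≤ α / 2 - 1 := Real.log_le_sub_one_of_pos (by positivity)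
        rw [h27]
        have h31 := mul_le_mul_of_nonneg_left l1.le (show (0 : ℝ) ≤ 2 * α - 4 by linarith only [hα2])
        linarith only [h31, h28, hα2]
      have h29 : (α : ℝ) * |U| ≤ (α : ℝ) * (2 * D * Real.log 2) := by
        calc (α : ℝ) * |U| ≤ |(d11 : ℝ)| * |U| :=
              mul_le_mul_of_nonneg_right hda (abs_nonneg U)
          _ ≤ D * Real.log 2 + D * Real.log (4 * α) := h23
          _ ≤ D * Real.log 2 + D * ((2 * α - 1) * Real.log 2) := by
              linarith [mul_le_mul_of_nonneg_left h26 hD.le]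
          _ = (α : ℝ) * (2 * D * Real.log 2) := by ring
      exact le_of_mul_le_mul_left h29 hα0
  · -- different case
    have hne' : d12 - d11 ≠ 0 := fun h => hne (by omega)
    have hda := habs (d12 - d11) (dvd_sub hdv2 hdv1) hne'
    have h1 : ((d12 - d11 : ℤ) : ℝ) * U = (A2 - A1) * x1 - r1 * (y2 - y1) := by
      push_cast
      linarith
    have h2 : |((d12 - d11 : ℤ) : ℝ)| * |U| ≤ 2 * D * Real.log 2 + D * Real.log α := by
      rw [← abs_mul, h1]
      refine (abs_sub _ _).trans ?_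
      rw [abs_mul, abs_mul, abs_of_pos hx10, abs_of_nonneg hΔ0]
      have h3 : |(A2 : ℝ) - A1| * x1 ≤ 2 * D * Real.log 2 :=
        mul_le_mul hAA hx1 hx10.le (by linarith)
      have h4 : |(r1 : ℝ)| * (y2 - y1) ≤ D * Real.log α :=
        mul_le_mul hr1 (hΔu.trans hlogu) hΔ0 hD.le
      linarith
    have h5 : Real.log α ≤ 2 * (α - 1) * Real.log 2 := by
      have h7 := mul_le_mul_of_nonneg_left l1.le (show (0 : ℝ) ≤ α - 1 by linarith only [hα2])
      linarith only [h7, hlogα, hα2]
    have h6 : (α : ℝ) * |U| ≤ (α : ℝ) * (2 * D * Real.log 2) := by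
      calc (α : ℝ) * |U| ≤ |((d12 - d11 : ℤ) : ℝ)| * |U| :=
            mul_le_mul_of_nonneg_right hda (abs_nonneg U)
        _ ≤ 2 * D * Real.log 2 + D * Real.log α := h2
        _ ≤ 2 * D * Real.log 2 + D * (2 * (α - 1) * Real.log 2) := by
            linarith [mul_le_mul_of_nonneg_left h5 hD.le]
        _ = (α : ℝ) * (2 * D * Real.log 2) := by ring
    exact le_of_mul_le_mul_left h6 hα0

theorem task_R2N : S_R2N := by
  intro D U x1 x2 y1 y2 r1 r2 d11 d12 d21 d22 A1 A2 κ hD hr1 hr2 hA1 hA2 hx1 hx1l hx2 hx2l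
    he1 he2 hr hd1 hd2 hu1 hu2 hu3 hu4 hk1 hk2 hp1 hp2 hd hns
  have hy1 := yy_of he1
  have hy2 := yy_of he2
  have hl2 : 0 < Real.log 2 := Real.log_pos (by norm_num)
  rcases lt_trichotomy x2 x1 with h | h | h
  · exact core D U x1 x2 y1 y2 r1 d11 d12 d21 d22 A1 A2 κ hD hr1 hA1 hA2 hx1l hx2 h hy1 hy2
      hd1 hd2 hu1 hu2 hk1 hp1 hd
  · have hne : d12 - d11 ≠ 0 := fun h' => hns ⟨h.symm, by omega⟩
    have hyy : y1 = y2 := by rw [hy1, hy2, h]
    have h1 : ((d12 - d11 : ℤ) : ℝ) * U = (A2 - A1) * x1 := by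
      push_cast
      rw [hyy] at hu1
      linarith
    have h2 : |((d12 - d11 : ℤ) : ℝ)| * |U| = |(A2 : ℝ) - A1| * x1 := by
      rw [← abs_mul, h1, abs_mul, abs_of_pos hx1]
    have h3 : (1 : ℝ) ≤ |((d12 - d11 : ℤ) : ℝ)| := by
      have : 1 ≤ |d12 - d11| := Int.one_le_abs hne
      have h4 : ((1 : ℤ) : ℝ) ≤ ((|d12 - d11| : ℤ) : ℝ) := by exact_mod_cast this
      rwa [Int.cast_abs, Int.cast_one] at h4
    have hAA : |((A2 : ℝ) - A1)| ≤ 2 * D := by
      have := abs_sub (A2 : ℝ) (A1 : ℝ)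
      linarith
    calc |U| = 1 * |U| := (one_mul _).symm
      _ ≤ |((d12 - d11 : ℤ) : ℝ)| * |U| := mul_le_mul_of_nonneg_right h3 (abs_nonneg U)
      _ = |(A2 : ℝ) - A1| * x1 := h2
      _ ≤ 2 * D * Real.log 2 := mul_le_mul hAA hx1l hx1.le (by linarith)
  · have hd' : d22 ≠ 0 ∨ d21 ≠ 0 := by
      rcases hd with h' | h'
      · right
        rintro rfl
        have : (d11 : ℝ) * x2 = 0 := by rw [hd1]; simp
        rcases mul_eq_zero.mp this with h3 | h3
        · exact h' (by exact_mod_cast h3)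
        · exact hx2.ne' h3
      · left
        rintro rfl
        have : (d12 : ℝ) * x2 = 0 := by rw [hd2]; simp
        rcases mul_eq_zero.mp this with h3 | h3
        · exact h' (by exact_mod_cast h3)
        · exact hx2.ne' h3
    refine core D U x2 x1 y2 y1 r2 d22 d21 d12 d11 A2 A1 (-κ) hD hr2 hA2 hA1 hx2l hx1 h hy2 hy1
      hd2.symm hd1.symm hu4 hu3 ?_ ?_ hd'
    · push_cast
      linarith
    · linarith

end Pool.Agent.Q137.TY
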