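import Pool.Agent.Q137.TY.Lin

/-! Project TY, job SPAN. -/

set_option autoImplicit false
set_option maxHeartbeats 400000

namespace Pool.Agent.Q137.TY

open Pool.Agent.Q6.TY Module

/-- Cramer's rule for the rows of a matrix -/
theorem cramer_rows {t : ℕ} (N : Matrix (Fin t) (Fin t) ℚ) (v : Fin t → ℚ)
    (L : (Fin t → ℚ) →ₗ[ℚ] ℝ) :
    (N.det : ℝ) * L v = ∑ i, ((N.updateRow i v).det : ℝ) * L (N i) := by
  have h := Matrix.mulVec_cramer N.transpose v
  have h2 : ∑ i, (N.updateRow i v).det • N i = N.det • v := by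
    funext j
    have h3 := congrFun h j
    rw [Matrix.det_transpose] at h3
    rw [← h3]
    simp only [Matrix.mulVec, dotProduct, Matrix.transpose_apply, Finset.sum_apply, Pi.smul_apply,
      smul_eq_mul, Matrix.cramer_transpose_apply]
    exact Finset.sum_congr rfl fun i _ => mul_comm _ _
  have h4 := congrArg L h2
  rw [map_sum, map_smul, Rat.smul_def] at h4
  rw [← h4]
  refine Finset.sum_congr rfl fun i _ => ?_
  rw [map_smul, Rat.smul_def]

theorem Dset_bounds {t : ℕ} {M E : Set (O t × O t × O t)} {p : Fin t → ℝ} (hp : ∀ i, 0 < p i)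
    (hsol : p ∈ Sol ℝ M E) {w : Fin t → ℚ} (hw : w ∈ Dset E p) :
    0 < lg p w ∧ lg p w ≤ Real.log 2 := by
  obtain ⟨x, hx, h⟩ := hw
  have h1 := hsol.2 x hx
  have p1 := vl_pos hp x.1
  have p2 := vl_pos hp x.2.1
  have p3 := vl_pos hp x.2.2
  rcases h with ⟨h2, rfl⟩ | ⟨h2, rfl⟩
  · rw [lg_sub, lg_ex, lg_ex]
    constructor
    · have := Real.log_lt_log p1 (show vl p x.1 < vl p x.2.2 by linarith)
      linarith
    · have := Real.log_le_log p3 (show vl p x.2.2 ≤ 2 * vl p x.1 by linarith)
      rw [Real.log_mul (by norm_num) p1.ne'] at this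
      linarith
  · rw [lg_sub, lg_ex, lg_ex]
    constructor
    · have := Real.log_lt_log p2 (show vl p x.2.1 < vl p x.2.2 by linarith)
      linarith
    · have := Real.log_le_log p3 (show vl p x.2.2 ≤ 2 * vl p x.2.1 by linarith)
      rw [Real.log_mul (by norm_num) p2.ne'] at this
      linarith

theorem Dset_short {t : ℕ} {E : Set (O t × O t × O t)} {p : Fin t → ℝ} {w : Fin t → ℚ}
    (hw : w ∈ Dset E p) : Q6.Add.Short w ∧ Intg w := by
  obtain ⟨x, -, ⟨-, rfl⟩ | ⟨-, rfl⟩⟩ := hw
  · exact ⟨sub_short _ _, (ex_intg _).sub (ex_intg _)⟩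
  · exact ⟨sub_short _ _, (ex_intg _).sub (ex_intg _)⟩

theorem task_SPAN : S_SPAN := by
  classical
  intro t M E p hp hsol htop m
  rw [VM_eq] at htop
  obtain ⟨B, J, hJ1, hJ2, hJc, hJs⟩ := exists_basis (SM M) (Dset E p) htop
  set N : Matrix (Fin t) (Fin t) ℚ := Matrix.of (fun i => B i) with hN
  have hNi : ∀ i, N i = B i := fun i => rfl
  have hdet0 : N.det ≠ 0 := by
    have hli : LinearIndependent ℚ N.row := B.linearIndependent
    rw [Matrix.linearIndependent_rows_iff_isUnit, Matrix.isUnit_iff_isUnit_det] at hli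
    exact hli.ne_zero
  have hintg : ∀ i, Intg (N i) := by
    intro i
    by_cases hi : i ∈ J
    · exact SM_intg (hJ1 i hi)
    · exact (Dset_short (hJ2 i hi)).2
  obtain ⟨n, hn⟩ := det_intg N hintg
  have hdet1 : (1 : ℝ) ≤ |(N.det : ℝ)| := by
    rw [hn]
    have hn0 : n ≠ 0 := by
      rintro rfl
      exact hdet0 (by rw [hn]; simp)
    have h1 : 1 ≤ |n| := Int.one_le_abs hn0
    have h2 : ((1 : ℤ) : ℝ) ≤ ((|n| : ℤ) : ℝ) := by exact_mod_cast h1
    rw [Int.cast_abs, Int.cast_one] at h2
    simpa using h2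
  have hcr := cramer_rows N (ex (some m)) (lgL p)
  have hlm : lgL p (ex (some m)) = Real.log (p m) := lg_ex p (some m)
  rw [hlm] at hcr
  have hl2 : 0 < Real.log 2 := Real.log_pos (by norm_num)
  -- bounds of the terms
  have hterm : ∀ i, |((N.updateRow i (ex (some m))).det : ℝ) * lgL p (N i)| ≤
      if i ∈ J then 0 else 2 ^ J.card * Real.log 2 := by
    intro i
    split_ifs with hi
    · have h1 : lgL p (N i) = 0 := by
        have : B i ∈ VM M := Submodule.subset_span (hJ1 i hi)
        exact lg_VM hp hsol this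
      rw [h1, mul_zero, abs_zero]
    · obtain ⟨b1, b2⟩ := Dset_bounds hp hsol (hJ2 i hi)
      have h1 : |(N.updateRow i (ex (some m))).det| ≤ 2 ^ J.card := by
        have h2 := Q6.Add.det_le_prod (N.updateRow i (ex (some m)))
          (fun k => if k ∈ J then (2 : ℚ) else 1) (fun k => by split_ifs <;> norm_num) (fun k => by
            by_cases hk : k = i
            · subst hk
              refine ⟨ex (some m), ex_short _, ?_⟩
              rw [Matrix.updateRow_self, if_neg hi, one_smul]
            · rw [Matrix.updateRow_ne hk]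
              by_cases hkJ : k ∈ J
              · rw [if_pos hkJ]
                exact SM_short (hJ1 k hkJ)
              · rw [if_neg hkJ]
                exact ⟨B k, (Dset_short (hJ2 k hkJ)).1, by rw [one_smul]; rfl⟩)
        rw [Finset.prod_ite_mem, Finset.univ_inter, Finset.prod_const] at h2
        exact h2
      have h3 : |((N.updateRow i (ex (some m))).det : ℝ)| ≤ 2 ^ J.card := by
        generalize (N.updateRow i (ex (some m))).det = z at h1
        have h7 : ((|z| : ℚ) : ℝ) ≤ ((2 ^ J.card : ℚ) : ℝ) := by exact_mod_cast h1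
        rw [Rat.cast_abs] at h7
        refine h7.trans (le_of_eq ?_)
        push_cast
        rfl
      rw [abs_mul]
      have h4 : |lgL p (N i)| ≤ Real.log 2 := by
        show |lg p (B i)| ≤ _
        rw [abs_of_pos b1]; exact b2
      exact mul_le_mul h3 h4 (abs_nonneg _) (by positivity)
  have hsum : |(N.det : ℝ) * Real.log (p m)| ≤ ((t : ℝ) - J.card) * (2 ^ J.card * Real.log 2) := by
    rw [hcr]
    refine (Finset.abs_sum_le_sum_abs _ _).trans ((Finset.sum_le_sum fun i _ => hterm i).trans ?_)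
    have h5 : ∑ i : Fin t, (if i ∈ J then (0 : ℝ) else 2 ^ J.card * Real.log 2) =
        ((Finset.univ \ J).card : ℝ) * (2 ^ J.card * Real.log 2) := by
      rw [← nsmul_eq_mul, ← Finset.sum_const, Finset.sum_ite, Finset.sum_const_zero, zero_add]
      apply Finset.sum_congr _ (fun _ _ => rfl)
      ext i
      simp
    rw [h5]
    have h6 : ((Finset.univ \ J).card : ℝ) = (t : ℝ) - J.card := by
      rw [Finset.card_sdiff_of_subset (Finset.subset_univ _),
        Nat.cast_sub (Finset.card_le_card (Finset.subset_univ _))]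
      simp
    rw [h6]
  have hfr : finrank ℚ (VM M) = J.card := by rw [VM_eq, hJc]
  rw [hfr]
  rw [abs_mul] at hsum
  calc |Real.log (p m)| = 1 * |Real.log (p m)| := (one_mul _).symm
    _ ≤ |(N.det : ℝ)| * |Real.log (p m)| := mul_le_mul_of_nonneg_right hdet1 (abs_nonneg _)
    _ ≤ _ := hsum
    _ = _ := by ring

end Pool.Agent.Q137.TY
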