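import Pool.Agent.Q137.TY.Two
import Pool.Agent.Q137.TY.SPAN
import Pool.Agent.Q137.TY.INF1
import Pool.Agent.Q137.TY.INF2
import Pool.Agent.Q137.TY.R2N

/-! Project TY, job POS2. -/

set_option autoImplicit false
set_option maxHeartbeats 400000

namespace Pool.Agent.Q137.TY

open Pool.Agent.Q6.TY Module

variable {t : ℕ}

/-- vectors killed by a functional and dependent on `d` -/
theorem dep_zero {f1 f2 : (Fin t → ℚ) →ₗ[ℚ] ℚ} {D0 : ℚ} (hD : D0 ≠ 0)
    {L : (Fin t → ℚ) →ₗ[ℚ] ℝ} {l1 l2 : ℝ} (hL : ∀ v, L v = (f1 v : ℝ) * l1 + (f2 v : ℝ) * l2)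
    {d v : Fin t → ℚ} (hd : L d ≠ 0) (hv : L v = 0)
    (hdv : (f1 d * f2 v - f2 d * f1 v) * D0 = 0) : f1 v = 0 ∧ f2 v = 0 := by
  have h1 : f1 d * f2 v - f2 d * f1 v = 0 := by
    rcases mul_eq_zero.mp hdv with h | h
    · exact h
    · exact absurd h hD
  have h2 : (f1 d : ℝ) * f2 v - f2 d * f1 v = 0 := by exact_mod_cast congrArg (fun z : ℚ => (z : ℝ)) h1
  rw [hL] at hd hv
  constructor
  · have h3 : ((f1 d : ℝ) * l1 + f2 d * l2) * f1 v = 0 := by
      linear_combination (f1 d : ℝ) * hv - l2 * h2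
    rcases mul_eq_zero.mp h3 with h | h
    · exact absurd h hd
    · exact_mod_cast h
  · have h3 : ((f1 d : ℝ) * l1 + f2 d * l2) * f2 v = 0 := by
      linear_combination (f2 d : ℝ) * hv + l1 * h2
    rcases mul_eq_zero.mp h3 with h | h
    · exact absurd h hd
    · exact_mod_cast h

/-- the ordered pair of vectors of an additive equation -/
theorem split_eq {M E : Set (O t × O t × O t)} {p : Fin t → ℝ} (hp : ∀ i, 0 < p i)
    (hsol : p ∈ Sol ℝ M E) {x : O t × O t × O t} (hx : x ∈ E) :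
    ∃ d e : Fin t → ℚ, d ∈ Dset E p ∧ ((d = ex x.2.2 - ex x.1 ∧ e = ex x.2.2 - ex x.2.1) ∨
      (e = ex x.2.2 - ex x.1 ∧ d = ex x.2.2 - ex x.2.1)) ∧
      Real.exp (-(lg p d)) + Real.exp (-(lg p e)) = 1 := by
  have h1 := hsol.2 x hx
  have p1 := vl_pos hp x.1
  have p2 := vl_pos hp x.2.1
  have p3 := vl_pos hp x.2.2
  have hexp : ∀ o, 0 < vl p o → Real.exp (-(lg p (ex x.2.2 - ex o))) = vl p o / vl p x.2.2 := by
    intro o ho
    rw [lg_sub, lg_ex, lg_ex, neg_sub, Real.exp_sub, Real.exp_log ho, Real.exp_log p3]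
  rcases le_total (vl p x.2.1) (vl p x.1) with h | h
  · refine ⟨ex x.2.2 - ex x.1, ex x.2.2 - ex x.2.1, ⟨x, hx, Or.inl ⟨h, rfl⟩⟩, Or.inl ⟨rfl, rfl⟩, ?_⟩
    rw [hexp _ p1, hexp _ p2, ← add_div, h1, div_self p3.ne']
  · refine ⟨ex x.2.2 - ex x.2.1, ex x.2.2 - ex x.1, ⟨x, hx, Or.inr ⟨h, rfl⟩⟩, Or.inr ⟨rfl, rfl⟩, ?_⟩
    rw [hexp _ p1, hexp _ p2, ← add_div, add_comm, h1, div_self p3.ne']

theorem vl_castC (q : Fin t → ℝ) (o : O t) :
    vl (fun i => ((q i : ℝ) : ℂ)) o = ((vl q o : ℝ) : ℂ) := by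
  cases o with
  | none => simp [vl]
  | some i => rfl

theorem sol_cast {M E : Set (O t × O t × O t)} {p : Fin t → ℝ} (h : p ∈ Sol ℝ M E) :
    (fun i => ((p i : ℝ) : ℂ)) ∈ Sol ℂ M E := by
  refine ⟨fun x hx => ?_, fun x hx => ?_⟩
  · rw [vl_castC, vl_castC, vl_castC, ← Complex.ofReal_mul, h.1 x hx]
  · rw [vl_castC, vl_castC, vl_castC, ← Complex.ofReal_add, h.2 x hx]

theorem cast_int {z : ℚ} {n : ℤ} (h : z = n) : ((n : ℤ) : ℝ) = ((z : ℚ) : ℝ) := by
  rw [h]; simp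

theorem abs_cast {z : ℚ} {n : ℤ} {a : ℕ} (h : z = n) (h2 : |z| ≤ 2 ^ a) : |((n : ℤ) : ℝ)| ≤ 2 ^ a := by
  rw [cast_int h]
  have h3 : ((|z| : ℚ) : ℝ) ≤ ((2 ^ a : ℚ) : ℝ) := by exact_mod_cast h2
  rw [Rat.cast_abs] at h3
  refine h3.trans (le_of_eq ?_)
  push_cast
  rfl

/-- the application of the real inequality -/
theorem apply_R2N (hR : S_R2N) {f1 f2 : (Fin t → ℚ) →ₗ[ℚ] ℚ} {D0 : ℚ} {a : ℕ}
    {L : (Fin t → ℚ) →ₗ[ℚ] ℝ} {l1 l2 : ℝ} (hL : ∀ v, L v = (f1 v : ℝ) * l1 + (f2 v : ℝ) * l2)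
    (hint : ∀ v w, Intg v → Intg w → ∃ n : ℤ, (f1 v * f2 w - f2 v * f1 w) * D0 = n)
    (hsh : ∀ v w, Q6.Add.Short v → Q6.Add.Short w → |(f1 v * f2 w - f2 v * f1 w) * D0| ≤ 2 ^ a)
    {m dg eg df ef : Fin t → ℚ} (im : Intg m) (idg : Intg dg) (ieg : Intg eg) (idf : Intg df)
    (ief : Intg ef) (sm : Q6.Add.Short m) (sdg : Q6.Add.Short dg) (seg : Q6.Add.Short eg)
    (sdf : Q6.Add.Short df) (sef : Q6.Add.Short ef)
    (hx1 : 0 < L dg) (hx1' : L dg ≤ Real.log 2) (hx2 : 0 < L df) (hx2' : L df ≤ Real.log 2)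
    (he1 : Real.exp (-(L dg)) + Real.exp (-(L eg)) = 1)
    (he2 : Real.exp (-(L df)) + Real.exp (-(L ef)) = 1)
    (h0 : (f1 dg * f2 df - f2 dg * f1 df) * D0 = 0)
    (hne : (f1 dg * f2 eg - f2 dg * f1 eg) * D0 ≠ 0)
    (hns : ¬ (L dg = L df ∧ (f1 dg * f2 ef - f2 dg * f1 ef) * D0 =
      (f1 dg * f2 eg - f2 dg * f1 eg) * D0)) :
    |L m| ≤ 2 * 2 ^ a * Real.log 2 := by
  obtain ⟨r1, hr1⟩ := hint m dg im idg
  obtain ⟨r2, hr2⟩ := hint m df im idf
  obtain ⟨d11, hd11⟩ := hint dg eg idg ieg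
  obtain ⟨d12, hd12⟩ := hint dg ef idg ief
  obtain ⟨d21, hd21⟩ := hint df eg idf ieg
  obtain ⟨d22, hd22⟩ := hint df ef idf ief
  obtain ⟨A1, hA1⟩ := hint m eg im ieg
  obtain ⟨A2, hA2⟩ := hint m ef im ief
  obtain ⟨κ, hκ⟩ := hint eg ef ieg ief
  have cr1 := cast_int hr1
  have cr2 := cast_int hr2
  have c11 := cast_int hd11
  have c12 := cast_int hd12
  have c21 := cast_int hd21
  have c22 := cast_int hd22
  have cA1 := cast_int hA1
  have cA2 := cast_int hA2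
  have cκ := cast_int hκ
  have H : ((f1 dg : ℝ) * f2 df - f2 dg * f1 df) * D0 = 0 := by
    exact_mod_cast congrArg (fun z : ℚ => (z : ℝ)) h0
  push_cast at cr1 cr2 c11 c12 c21 c22 cA1 cA2 cκ
  refine hR (2 ^ a) (L m) (L dg) (L df) (L eg) (L ef) r1 r2 d11 d12 d21 d22 A1 A2 κ (by positivity)
    (abs_cast hr1 (hsh _ _ sm sdg)) (abs_cast hr2 (hsh _ _ sm sdf))
    (abs_cast hA1 (hsh _ _ sm seg)) (abs_cast hA2 (hsh _ _ sm sef)) hx1 hx1' hx2 hx2' he1 he2
    ?_ ?_ ?_ ?_ ?_ ?_ ?_ ?_ ?_ ?_ ?_ ?_ ?_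
  · rw [cr1, cr2, hL dg, hL df]
    linear_combination (-((f1 m : ℝ) * l1 + f2 m * l2)) * H
  · rw [c11, c21, hL dg, hL df]
    linear_combination (l1 * (f1 eg : ℝ) + l2 * f2 eg) * H
  · rw [c12, c22, hL dg, hL df]
    linear_combination (l1 * (f1 ef : ℝ) + l2 * f2 ef) * H
  · rw [c11, cA1, cr1, hL m, hL dg, hL eg]; ring
  · rw [c12, cA2, cr1, hL m, hL dg, hL ef]; ring
  · rw [c21, cA1, cr2, hL m, hL df, hL eg]; ring
  · rw [c22, cA2, cr2, hL m, hL df, hL ef]; ring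
  · rw [cκ, c12, c11, hL dg, hL eg, hL ef]; ring
  · rw [cκ, c22, c21, hL df, hL eg, hL ef]; ring
  · have : (r1 : ℝ) * κ = A1 * d12 - A2 * d11 := by
      rw [cr1, cκ, cA1, c12, cA2, c11]; ring
    exact_mod_cast this
  · have : (r2 : ℝ) * κ = A1 * d22 - A2 * d21 := by
      rw [cr2, cκ, cA1, c22, cA2, c21]; ring
    exact_mod_cast this
  · left
    intro h
    rw [hd11, h] at hne
    exact hne (by simp)
  · rintro ⟨h1, h2⟩
    refine hns ⟨h1, ?_⟩
    rw [hd12, hd11, h2]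

theorem task_POS2 : S_SPAN → S_INF1 → S_INF2 → S_R2N → S_POS2 := by
  intro hSP hI1 hI2 hR t M E p hp hsol hfin h2 m
  obtain ⟨f1, f2, D0, hD0, hmem, hLex, hint, hsh⟩ := two_dim M h2
  have hfr : ((t : ℝ) - finrank ℚ (VM M)) = 2 := by
    have : (t : ℝ) = finrank ℚ (VM M) + 2 := by exact_mod_cast h2.symm
    rw [this]; ring
  by_cases htop : VM M ⊔ Submodule.span ℚ (Dset E p) = ⊤
  · have := hSP t M E p hp hsol htop m
    rwa [hfr] at this
  obtain ⟨l1, l2, hL⟩ := hLex (lgL p) (lg_VM hp hsol)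
  have hsolC := sol_cast hsol
  have hpC : ∀ i, ((p i : ℝ) : ℂ) ≠ 0 := fun i => by
    exact_mod_cast (hp i).ne'
  set Dl := VM M ⊔ Submodule.span ℚ (Dset E p) with hDl
  -- two independent vectors of `Dl` are impossible
  have hdep : ∀ v ∈ Dl, ∀ w ∈ Dl, (f1 v * f2 w - f2 v * f1 w) * D0 = 0 := by
    intro v hv w hw
    by_contra hc
    apply htop
    rw [Submodule.eq_top_iff']
    intro z
    have hc' : f1 v * f2 w - f2 v * f1 w ≠ 0 := fun h => hc (by rw [h, zero_mul])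
    have h3 : (f1 v * f2 w - f2 v * f1 w) • z - (f1 z * f2 w - f2 z * f1 w) • v -
        (f1 v * f2 z - f2 v * f1 z) • w ∈ VM M := by
      rw [hmem]
      constructor
      · simp only [map_sub, map_smul, smul_eq_mul]; ring
      · simp only [map_sub, map_smul, smul_eq_mul]; ring
    have h4 : (f1 v * f2 w - f2 v * f1 w) • z ∈ Dl := by
      have h5 := Dl.add_mem (Dl.add_mem (Submodule.mem_sup_left h3)
        (Dl.smul_mem (f1 z * f2 w - f2 z * f1 w) hv)) (Dl.smul_mem (f1 v * f2 z - f2 v * f1 z) hw)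
      have h6 : (f1 v * f2 w - f2 v * f1 w) • z - (f1 z * f2 w - f2 z * f1 w) • v -
          (f1 v * f2 z - f2 v * f1 z) • w + (f1 z * f2 w - f2 z * f1 w) • v +
          (f1 v * f2 z - f2 v * f1 z) • w = (f1 v * f2 w - f2 v * f1 w) • z := by abel
      rwa [h6] at h5
    have h7 := Dl.smul_mem (f1 v * f2 w - f2 v * f1 w)⁻¹ h4
    rwa [smul_smul, inv_mul_cancel₀ hc', one_smul] at h7
  -- some equation with `e` outside `Dl`
  obtain ⟨g, hgE, hg⟩ : ∃ g ∈ E, ¬ (ex g.2.2 - ex g.1 ∈ Dl ∧ ex g.2.2 - ex g.2.1 ∈ Dl) := by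
    by_contra hc
    push Not at hc
    exact (hI1 t M E _ hpC hsolC Dl htop le_sup_left (fun x hx => hc x hx)) hfin
  obtain ⟨dg, eg, hdgD, hdge, hexpg⟩ := split_eq hp hsol hgE
  have hDsub : ∀ w ∈ Dset E p, w ∈ Dl := fun w hw =>
    Submodule.mem_sup_right (Submodule.subset_span hw)
  have hdgDl := hDsub dg hdgD
  have hegDl : eg ∉ Dl := by
    intro h
    apply hg
    rcases hdge with ⟨e1, e2⟩ | ⟨e1, e2⟩
    · rw [← e1, ← e2]; exact ⟨hdgDl, h⟩
    · rw [← e1, ← e2]; exact ⟨h, hdgDl⟩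
  obtain ⟨bg1, bg2⟩ := Dset_bounds hp hsol hdgD
  have hLdg : lgL p dg ≠ 0 := bg1.ne'
  have hne : (f1 dg * f2 eg - f2 dg * f1 eg) * D0 ≠ 0 := by
    intro h0
    apply hegDl
    have h3 : f1 dg * f2 eg - f2 dg * f1 eg = 0 := by
      rcases mul_eq_zero.mp h0 with h | h
      · exact h
      · exact absurd h hD0
    have h4 : f1 dg ≠ 0 ∨ f2 dg ≠ 0 := by
      by_contra hc
      push Not at hc
      apply hLdg
      rw [hL, hc.1, hc.2]
      simp
    rcases h4 with h4 | h4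
    · have h5 : eg - (f1 eg / f1 dg) • dg ∈ VM M := by
        rw [hmem]
        constructor
        · rw [map_sub, map_smul, smul_eq_mul]; field_simp; ring
        · rw [map_sub, map_smul, smul_eq_mul]
          field_simp
          linarith
      have h6 := Dl.add_mem (Submodule.mem_sup_left h5) (Dl.smul_mem (f1 eg / f1 dg) hdgDl)
      rwa [sub_add_cancel] at h6
    · have h5 : eg - (f2 eg / f2 dg) • dg ∈ VM M := by
        rw [hmem]
        constructor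
        · rw [map_sub, map_smul, smul_eq_mul]
          field_simp
          linarith
        · rw [map_sub, map_smul, smul_eq_mul]; field_simp; ring
      have h6 := Dl.add_mem (Submodule.mem_sup_left h5) (Dl.smul_mem (f2 eg / f2 dg) hdgDl)
      rwa [sub_add_cancel] at h6
  have heg : Q6.Add.Short eg ∧ Intg eg := by
    rcases hdge with ⟨-, e2⟩ | ⟨e1, -⟩
    · rw [e2]; exact ⟨sub_short _ _, (ex_intg _).sub (ex_intg _)⟩
    · rw [e1]; exact ⟨sub_short _ _, (ex_intg _).sub (ex_intg _)⟩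
  obtain ⟨sdg, idg⟩ := Dset_short hdgD
  by_cases hall : ∀ x ∈ E, ∀ df ef : Fin t → ℚ, df ∈ Dset E p →
      ((df = ex x.2.2 - ex x.1 ∧ ef = ex x.2.2 - ex x.2.1) ∨
      (ef = ex x.2.2 - ex x.1 ∧ df = ex x.2.2 - ex x.2.1)) →
      Real.exp (-(lg p df)) + Real.exp (-(lg p ef)) = 1 →
      (lgL p dg = lgL p df ∧ (f1 dg * f2 ef - f2 dg * f1 ef) * D0 =
        (f1 dg * f2 eg - f2 dg * f1 eg) * D0)
  · exfalso
    refine (hI2 t M E p hp hsol dg eg ?_ hexpg ?_) hfin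
    · intro α β hαβ
      rw [hmem] at hαβ
      obtain ⟨h3, h4⟩ := hαβ
      rw [map_add, map_smul, map_smul, smul_eq_mul, smul_eq_mul] at h3 h4
      have h5 : α * ((f1 dg * f2 eg - f2 dg * f1 eg) * D0) = 0 := by
        linear_combination (D0 * f2 eg) * h3 - (D0 * f1 eg) * h4
      have h6 : β * ((f1 dg * f2 eg - f2 dg * f1 eg) * D0) = 0 := by
        linear_combination (D0 * f1 dg) * h4 - (D0 * f2 dg) * h3
      exact ⟨(mul_eq_zero.mp h5).resolve_right hne, (mul_eq_zero.mp h6).resolve_right hne⟩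
    · intro x hx
      obtain ⟨df, ef, hdfD, hdfe, hexpf⟩ := split_eq hp hsol hx
      obtain ⟨h3, h4⟩ := hall x hx df ef hdfD hdfe hexpf
      have h5 : df - dg ∈ VM M := by
        rw [hmem]
        refine dep_zero hD0 hL hLdg ?_ ?_
        · rw [map_sub, h3, sub_self]
        · have h6 := hdep dg hdgDl df (hDsub df hdfD)
          rw [map_sub, map_sub]
          linear_combination h6
      have hyy : lgL p ef = lgL p eg := by
        have h7 : lg p df = lg p dg := h3.symm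
        have h8 : Real.exp (-(lg p ef)) = Real.exp (-(lg p eg)) := by
          rw [h7] at hexpf
          linarith
        have h9 := Real.exp_injective h8
        show lg p ef = lg p eg
        linarith
      have h10 : ef - eg ∈ VM M := by
        rw [hmem]
        refine dep_zero hD0 hL hLdg ?_ ?_
        · rw [map_sub, hyy, sub_self]
        · rw [map_sub, map_sub]
          linear_combination h4
      rcases hdfe with ⟨e1, e2⟩ | ⟨e1, e2⟩
      · left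
        rw [← e1, ← e2]
        exact ⟨h5, h10⟩
      · right
        rw [← e1, ← e2]
        exact ⟨h10, h5⟩
  · push Not at hall
    obtain ⟨x, hx, df, ef, hdfD, hdfe, hexpf, hnot⟩ := hall
    have hef : Q6.Add.Short ef ∧ Intg ef := by
      rcases hdfe with ⟨-, e2⟩ | ⟨e1, -⟩
      · rw [e2]; exact ⟨sub_short _ _, (ex_intg _).sub (ex_intg _)⟩
      · rw [e1]; exact ⟨sub_short _ _, (ex_intg _).sub (ex_intg _)⟩
    obtain ⟨sdf, idf⟩ := Dset_short hdfD
    obtain ⟨bf1, bf2⟩ := Dset_bounds hp hsol hdfD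
    have hlm : lgL p (ex (some m)) = Real.log (p m) := lg_ex p (some m)
    rw [← hlm]
    exact apply_R2N hR hL hint hsh (ex_intg (some m)) idg heg.2 idf hef.2 (ex_short _) sdg heg.1
      sdf hef.1 bg1 bg2 bf1 bf2 hexpg hexpf (hdep dg hdgDl df (hDsub df hdfD)) hne
      (fun h => hnot h.1 h.2)

theorem pos2_full : S_POS2 := task_POS2 task_SPAN task_INF1 task_INF2 task_R2N

end Pool.Agent.Q137.TY
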