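import Pool.Agent.Q6.TY.Stm2

/-! Project TY, job SMI. -/

set_option autoImplicit false

namespace Pool.Agent.Q137.TY

open Pool.Agent.Q6.TY

theorem Sm_mono {F G : ℕ → ℝ} (h : ∀ n, F n ≤ G n) (N : ℕ) : Sm F N ≤ Sm G N :=
  Finset.sum_le_sum fun n _ => h n

theorem it_mono (j : ℕ) : ∀ (F G : ℕ → ℝ), (∀ n, F n ≤ G n) → ∀ N, (Sm^[j] F) N ≤ (Sm^[j] G) N := by
  induction j with
  | zero => intro F G h N; exact h N
  | succ j ih =>
    intro F G h N
    rw [Function.iterate_succ_apply, Function.iterate_succ_apply]
    exact ih _ _ (Sm_mono h) N

theorem task_SMI : S_SMI := by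
  refine ⟨fun F G j h N => it_mono j F G h N, ?_, ?_, ?_, ?_, ?_⟩
  · intro F G a b j
    induction j generalizing F G with
    | zero => intro N; rfl
    | succ j ih =>
      intro N
      have e : Sm (fun n => a * F n + b * G n) = fun n => a * Sm F n + b * Sm G n := by
        funext M
        unfold Sm
        rw [Finset.sum_add_distrib, ← Finset.mul_sum, ← Finset.mul_sum]
      rw [Function.iterate_succ_apply, Function.iterate_succ_apply, Function.iterate_succ_apply, e]
      exact ih (Sm F) (Sm G) N
  · intro F j c
    induction j generalizing F with
    | zero => intro _ N; exact le_refl _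
    | succ j ih =>
      intro hF N
      rw [Function.iterate_succ_apply, Function.iterate_succ_apply]
      have h1 : ∀ n, Sm (fun n => F (n + c)) n ≤ (Sm F) (n + c) := by
        intro n
        unfold Sm
        have h2 : ∑ i ∈ Finset.range (n + 1), F (i + c) =
            ∑ i ∈ (Finset.range (n + 1)).image (fun i => i + c), F i := by
          rw [Finset.sum_image]
          intro i _ k _ h
          exact Nat.add_right_cancel h
        rw [h2]
        refine Finset.sum_le_sum_of_subset_of_nonneg ?_ (fun i _ _ => hF i)
        intro i hi
        obtain ⟨k, hk, rfl⟩ := Finset.mem_image.mp hi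
        rw [Finset.mem_range] at hk ⊢
        omega
      have h3 := it_mono j _ _ h1 N
      exact h3.trans (ih (Sm F) (fun n => Finset.sum_nonneg fun i _ => hF i) N)
  · intro t j
    induction j generalizing t with
    | zero => intro N; simp
    | succ j ih =>
      intro N
      rw [Function.iterate_succ_apply]
      have e : Sm (fun n => ((n + t).choose t : ℝ)) = fun n => ((n + (t + 1)).choose (t + 1) : ℝ) := by
        funext M
        unfold Sm
        rw [← Nat.cast_sum, Nat.sum_range_add_choose]
        rfl
      rw [e, ih (t + 1) N]
      have e1 : N + (t + 1) + j = N + t + (j + 1) := by omega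
      have e2 : t + 1 + j = t + (j + 1) := by omega
      rw [e1, e2]
  · intro e j
    induction j with
    | zero => intro N; exact le_refl _
    | succ j ih =>
      intro N
      rw [Function.iterate_succ_apply']
      unfold Sm
      have h1 : ∀ n ∈ Finset.range (N + 1),
          (Sm^[j] (fun n => ((n : ℝ) + 1) ^ e)) n ≤ ((N : ℝ) + 1) ^ (e + j) := by
        intro n hn
        refine (ih n).trans (pow_le_pow_left₀ (by positivity) ?_ _)
        have : n ≤ N := Nat.lt_succ_iff.mp (Finset.mem_range.mp hn)
        have : (n : ℝ) ≤ N := by exact_mod_cast this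
        linarith
      have h2 := Finset.sum_le_sum h1
      rw [Finset.sum_const, Finset.card_range, nsmul_eq_mul] at h2
      have e3 : ((N + 1 : ℕ) : ℝ) * ((N : ℝ) + 1) ^ (e + j) = ((N : ℝ) + 1) ^ (e + (j + 1)) := by
        push_cast
        ring
      rw [e3] at h2
      exact h2
  · intro j
    induction j with
    | zero => intro N; simp
    | succ j ih =>
      intro N
      rw [Function.iterate_succ_apply']
      have e : (Sm^[j] (fun n => (n : ℝ))) = fun n => ((n + j).choose (j + 1) : ℝ) := by
        funext n; exact ih n
      rw [e]
      unfold Sm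
      induction N with
      | zero =>
        simp
      | succ N ihN =>
        rw [Finset.sum_range_succ, ihN]
        have h4 : (N + 1 + (j + 1)).choose (j + 1 + 1) =
            (N + 1 + j).choose (j + 1) + (N + (j + 1)).choose (j + 1 + 1) := by
          have : N + 1 + (j + 1) = (N + (j + 1)) + 1 := by omega
          rw [this, Nat.choose_succ_succ]
          have : N + 1 + j = N + (j + 1) := by omega
          rw [this]
        rw [h4]
        push_cast
        ring

end Pool.Agent.Q137.TY
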