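import Pool.Agent.Q137.TY.Lin

/-! Project TY, the quotient of rank two. -/

set_option autoImplicit false
set_option maxHeartbeats 400000

namespace Pool.Agent.Q137.TY

open Pool.Agent.Q6.TY Module

variable {t : ℕ}

theorem upd_self {R : Matrix (Fin t) (Fin t) ℚ} {i : Fin t} {v : Fin t → ℚ} (h : R i = v) :
    R.updateRow i v = R := by
  rw [← h, Matrix.updateRow_eq_self]

/-- the determinant as a linear map of a row -/
noncomputable def rowL (R : Matrix (Fin t) (Fin t) ℚ) (i : Fin t) : (Fin t → ℚ) →ₗ[ℚ] ℚ where
  toFun v := (R.updateRow i v).det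
  map_add' v w := Matrix.det_updateRow_add R i v w
  map_smul' c v := Matrix.det_updateRow_smul R i c v

theorem rowL_apply (R : Matrix (Fin t) (Fin t) ℚ) (i : Fin t) (v : Fin t → ℚ) :
    rowL R i v = (R.updateRow i v).det := rfl

/-- one row replaced -/
theorem det_one (B : Basis (Fin t) ℚ (Fin t → ℚ)) (i1 : Fin t) (v : Fin t → ℚ) :
    ((Matrix.of (fun i => B i)).updateRow i1 v).det =
      B.coord i1 v * (Matrix.of (fun i => B i)).det := by
  set R : Matrix (Fin t) (Fin t) ℚ := Matrix.of (fun i => B i) with hR
  have hRi : ∀ i, R i = B i := fun i => rfl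
  have h : rowL R i1 = R.det • B.coord i1 := by
    refine B.ext fun j => ?_
    rw [rowL_apply, LinearMap.smul_apply, smul_eq_mul, Basis.coord_apply, Basis.repr_self]
    by_cases hj : j = i1
    · subst hj
      rw [Finsupp.single_eq_same, mul_one, upd_self (hRi j)]
    · rw [Finsupp.single_eq_of_ne (fun h' => hj h'.symm), mul_zero]
      refine Matrix.det_zero_of_row_eq hj ?_
      rw [Matrix.updateRow_ne hj, Matrix.updateRow_self, hRi]
  have h1 := congrArg (fun f => f v) h
  simp only [rowL_apply, LinearMap.smul_apply, smul_eq_mul] at h1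
  rw [h1, mul_comm]

/-- two rows replaced -/
theorem det_two (B : Basis (Fin t) ℚ (Fin t → ℚ)) {i1 i2 : Fin t} (h12 : i1 ≠ i2)
    (v w : Fin t → ℚ) :
    (((Matrix.of (fun i => B i)).updateRow i1 v).updateRow i2 w).det =
      (B.coord i1 v * B.coord i2 w - B.coord i2 v * B.coord i1 w) *
        (Matrix.of (fun i => B i)).det := by
  set R : Matrix (Fin t) (Fin t) ℚ := Matrix.of (fun i => B i) with hR
  have hRi : ∀ i, R i = B i := fun i => rfl
  -- second step: `w = B i1`
  have hsw : ∀ v, ((R.updateRow i1 v).updateRow i2 (B i1)).det = -(B.coord i2 v * R.det) := by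
    intro v
    have hcomm : (R.updateRow i1 v).updateRow i2 (B i1) = (R.updateRow i2 (B i1)).updateRow i1 v := by
      unfold Matrix.updateRow
      exact Function.update_comm h12 _ _ _
    rw [hcomm]
    have h : rowL (R.updateRow i2 (B i1)) i1 = (-R.det) • B.coord i2 := by
      refine B.ext fun j => ?_
      rw [rowL_apply, LinearMap.smul_apply, smul_eq_mul, Basis.coord_apply, Basis.repr_self]
      by_cases hj2 : j = i2
      · subst hj2
        rw [Finsupp.single_eq_same, mul_one]
        have hperm : (R.updateRow j (B i1)).updateRow i1 (B j) =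
            R.submatrix (Equiv.swap i1 j) id := by
          ext k l
          rw [Matrix.submatrix_apply, id]
          by_cases hk1 : k = i1
          · subst hk1
            rw [Matrix.updateRow_self, Equiv.swap_apply_left]
            rfl
          · rw [Matrix.updateRow_ne hk1]
            by_cases hk2 : k = j
            · subst hk2
              rw [Matrix.updateRow_self, Equiv.swap_apply_right]
              rfl
            · rw [Matrix.updateRow_ne hk2, Equiv.swap_apply_of_ne_of_ne hk1 hk2]
        rw [hperm, Matrix.det_permute, Equiv.Perm.sign_swap h12]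
        simp
      · rw [Finsupp.single_eq_of_ne (fun h' => hj2 h'.symm), mul_zero]
        by_cases hj1 : j = i1
        · subst hj1
          refine Matrix.det_zero_of_row_eq h12 ?_
          rw [Matrix.updateRow_self, Matrix.updateRow_ne h12.symm, Matrix.updateRow_self]
        · refine Matrix.det_zero_of_row_eq hj1 ?_
          rw [Matrix.updateRow_ne hj1, Matrix.updateRow_ne hj2, Matrix.updateRow_self, hRi]
    have h1 := congrArg (fun f => f v) h
    simp only [rowL_apply, LinearMap.smul_apply, smul_eq_mul] at h1
    rw [h1]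
    ring
  have h : rowL (R.updateRow i1 v) i2 =
      (B.coord i1 v * R.det) • B.coord i2 - (B.coord i2 v * R.det) • B.coord i1 := by
    refine B.ext fun j => ?_
    rw [rowL_apply, LinearMap.sub_apply, LinearMap.smul_apply, LinearMap.smul_apply, smul_eq_mul,
      smul_eq_mul]
    have hc : ∀ i, B.coord i (B j) = if j = i then 1 else 0 := by
      intro i
      rw [Basis.coord_apply, Basis.repr_self, Finsupp.single_apply]
    rw [hc, hc]
    by_cases hj2 : j = i2
    · subst hj2
      rw [if_pos rfl, if_neg h12.symm, mul_one, mul_zero, sub_zero]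
      have : (R.updateRow i1 v).updateRow j (B j) = R.updateRow i1 v := by
        apply upd_self
        rw [Matrix.updateRow_ne h12.symm, hRi]
      rw [this]
      exact det_one B i1 v
    · rw [if_neg hj2, mul_zero, zero_sub]
      by_cases hj1 : j = i1
      · subst hj1
        rw [if_pos rfl, mul_one]
        exact hsw v
      · rw [if_neg hj1, mul_zero, neg_zero]
        refine Matrix.det_zero_of_row_eq hj2 ?_
        rw [Matrix.updateRow_ne hj2, Matrix.updateRow_self, Matrix.updateRow_ne hj1, hRi]
  have h1 := congrArg (fun f => f w) h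
  simp only [rowL_apply, LinearMap.sub_apply, LinearMap.smul_apply, smul_eq_mul] at h1
  rw [h1]
  ring

theorem two_dim (M : Set (O t × O t × O t)) (h2 : finrank ℚ (VM M) + 2 = t) :
    ∃ (f1 f2 : (Fin t → ℚ) →ₗ[ℚ] ℚ) (D0 : ℚ), D0 ≠ 0 ∧
      (∀ v, v ∈ VM M ↔ f1 v = 0 ∧ f2 v = 0) ∧
      (∀ L : (Fin t → ℚ) →ₗ[ℚ] ℝ, VM M ≤ LinearMap.ker L →
        ∃ l1 l2 : ℝ, ∀ v, L v = (f1 v : ℝ) * l1 + (f2 v : ℝ) * l2) ∧
      (∀ v w, Intg v → Intg w → ∃ n : ℤ, (f1 v * f2 w - f2 v * f1 w) * D0 = n) ∧
      (∀ v w, Q6.Add.Short v → Q6.Add.Short w →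
        |(f1 v * f2 w - f2 v * f1 w) * D0| ≤ 2 ^ finrank ℚ (VM M)) := by
  classical
  obtain ⟨B, J, hJ1, -, hJc, hJs⟩ := exists_basis (SM M) Set.univ (by
    rw [Submodule.span_univ, sup_top_eq])
  rw [← VM_eq] at hJc hJs
  have hJcc : (Finset.univ \ J).card = 2 := by
    rw [Finset.card_sdiff_of_subset (Finset.subset_univ _)]
    simp only [Finset.card_univ, Fintype.card_fin]
    omega
  obtain ⟨i1, i2, h12, hJe⟩ := Finset.card_eq_two.mp hJcc
  have hi1 : i1 ∉ J := by
    have : i1 ∈ Finset.univ \ J := by rw [hJe]; simp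
    exact (Finset.mem_sdiff.mp this).2
  have hi2 : i2 ∉ J := by
    have : i2 ∈ Finset.univ \ J := by rw [hJe]; simp
    exact (Finset.mem_sdiff.mp this).2
  have hcase : ∀ i, i ∈ J ∨ i = i1 ∨ i = i2 := by
    intro i
    by_cases hi : i ∈ J
    · exact Or.inl hi
    · right
      have : i ∈ Finset.univ \ J := Finset.mem_sdiff.mpr ⟨Finset.mem_univ _, hi⟩
      rw [hJe] at this
      simpa using this
  set R : Matrix (Fin t) (Fin t) ℚ := Matrix.of (fun i => B i) with hR
  have hRi : ∀ i, R i = B i := fun i => rfl
  have hdet0 : R.det ≠ 0 := by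
    have hli : LinearIndependent ℚ R.row := B.linearIndependent
    rw [Matrix.linearIndependent_rows_iff_isUnit, Matrix.isUnit_iff_isUnit_det] at hli
    exact hli.ne_zero
  have hc : ∀ i j, B.coord i (B j) = if j = i then 1 else 0 := by
    intro i j
    rw [Basis.coord_apply, Basis.repr_self, Finsupp.single_apply]
  have hmem : ∀ v, v ∈ VM M ↔ B.coord i1 v = 0 ∧ B.coord i2 v = 0 := by
    intro v
    constructor
    · intro hv
      have h1 : VM M ≤ LinearMap.ker (B.coord i1) ⊓ LinearMap.ker (B.coord i2) := by
        rw [hJs, Submodule.span_le]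
        rintro _ ⟨i, rfl⟩
        refine ⟨?_, ?_⟩
        · show B.coord i1 (B i) = 0
          rw [hc, if_neg (fun h : (i : Fin t) = i1 => hi1 (h ▸ i.2))]
        · show B.coord i2 (B i) = 0
          rw [hc, if_neg (fun h : (i : Fin t) = i2 => hi2 (h ▸ i.2))]
      exact h1 hv
    · rintro ⟨h1, h3⟩
      rw [← B.sum_repr v]
      refine Submodule.sum_mem _ fun i _ => ?_
      rcases hcase i with hi | rfl | rfl
      · exact Submodule.smul_mem _ _ (Submodule.subset_span (hJ1 i hi))
      · have : B.repr v i = 0 := h1
        rw [this, zero_smul]; exact Submodule.zero_mem _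
      · have : B.repr v i = 0 := h3
        rw [this, zero_smul]; exact Submodule.zero_mem _
  refine ⟨B.coord i1, B.coord i2, R.det, hdet0, hmem, ?_, ?_, ?_⟩
  · intro L hL
    refine ⟨L (B i1), L (B i2), fun v => ?_⟩
    have h1 : v - B.coord i1 v • B i1 - B.coord i2 v • B i2 ∈ VM M := by
      rw [hmem]
      refine ⟨?_, ?_⟩
      · rw [map_sub, map_sub, map_smul, map_smul, hc, hc, if_pos rfl, if_neg h12.symm]
        simp
      · rw [map_sub, map_sub, map_smul, map_smul, hc, hc, if_pos rfl, if_neg h12]
        simp
    have h3 : L (v - B.coord i1 v • B i1 - B.coord i2 v • B i2) = 0 := hL h1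
    rw [map_sub, map_sub, map_smul, map_smul, Rat.smul_def, Rat.smul_def] at h3
    linarith
  · intro v w hv hw
    rw [← det_two B h12 v w]
    apply det_intg
    intro i
    by_cases hi2' : i = i2
    · subst hi2'
      rw [Matrix.updateRow_self]; exact hw
    · rw [Matrix.updateRow_ne hi2']
      by_cases hi1' : i = i1
      · subst hi1'
        rw [Matrix.updateRow_self]; exact hv
      · rw [Matrix.updateRow_ne hi1']
        rcases hcase i with h | h | h
        · exact SM_intg (hJ1 i h)
        · exact absurd h hi1'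
        · exact absurd h hi2'
  · intro v w hv hw
    rw [← det_two B h12 v w, ← hJc]
    have h3 := Q6.Add.det_le_prod ((R.updateRow i1 v).updateRow i2 w)
      (fun k => if k ∈ J then (2 : ℚ) else 1) (fun k => by split_ifs <;> norm_num) (fun k => by
        by_cases hk2 : k = i2
        · subst hk2
          refine ⟨w, hw, ?_⟩
          rw [Matrix.updateRow_self, if_neg hi2, one_smul]
        · rw [Matrix.updateRow_ne hk2]
          by_cases hk1 : k = i1
          · subst hk1
            refine ⟨v, hv, ?_⟩
            rw [Matrix.updateRow_self, if_neg hi1, one_smul]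
          · rw [Matrix.updateRow_ne hk1]
            rcases hcase k with h | h | h
            · rw [if_pos h]
              exact SM_short (hJ1 k h)
            · exact absurd h hk1
            · exact absurd h hk2)
    rw [Finset.prod_ite_mem, Finset.univ_inter, Finset.prod_const] at h3
    exact h3

end Pool.Agent.Q137.TY
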